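import Mathlib
import Pool.Agent.H4.Sparse2

set_option autoImplicit false

namespace Pool.Agent.Results.MP_8f05cb_co.Asymptotic

/-- `G` admits perfect state transfer between two distinct vertices at some real time. -/
def HasPST {V : Type} [Fintype V] [DecidableEq V] (G : SimpleGraph V) [DecidableRel G.Adj] : Prop :=
  ∃ u v : V, u ≠ v ∧ ∃ t : ℝ, ∃ γ : ℂ, ‖γ‖ = 1 ∧
    (NormedSpace.exp ((Complex.I * (t : ℂ)) • G.adjMatrix ℂ)).mulVec (Pi.single u 1)
      = γ • Pi.single v 1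

/-- Edge numbers of connected graphs on `n` vertices with perfect state transfer. -/
def edgeCounts (n : ℕ) : Set ℕ :=
  {k | ∃ (V : Type) (_ : Fintype V) (_ : DecidableEq V) (G : SimpleGraph V)
    (_ : DecidableRel G.Adj),
    Fintype.card V = n ∧ G.Connected ∧ HasPST G ∧ G.edgeFinset.card = k}

/-- Godsil's function: the least such edge number, infinite if there is no such graph. -/
noncomputable def m (n : ℕ) : ℕ∞ := sInf ((fun k : ℕ => (k : ℕ∞)) '' edgeCounts n)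

def nmax (β : ℕ) : ℕ := 8 * β * (β + 1) * (2 * β + 1) ^ 2

theorem exists_graph (n : ℕ) (hn : 56784 ≤ n) :
    ∃ k ∈ edgeCounts n, ∃ b : ℕ, b ^ 4 ≤ n ∧ k ≤ n + 16 * b := by
  have hex : ∃ β, n + 164 ≤ nmax β := ⟨n + 164, by
    unfold nmax
    have h1 : 1 ≤ (2 * (n + 164) + 1) ^ 2 := Nat.one_le_pow _ _ (by omega)
    calc n + 164 ≤ 8 * (n + 164) * (n + 164 + 1) * 1 := by nlinarith
      _ ≤ _ := Nat.mul_le_mul_left _ h1⟩
  classical
  have hβ := Nat.find_spec hex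
  have hmin := fun β' => Nat.find_min hex (m := β')
  set β := Nat.find hex with hβdef
  have h7 : 7 ≤ β := by
    by_contra hlt
    have : β ≤ 6 := by omega
    have h2 : nmax β ≤ 56784 := by
      unfold nmax
      interval_cases β <;> norm_num
    omega
  obtain ⟨γ, hγ⟩ : ∃ γ, β = γ + 7 := ⟨β - 7, by omega⟩
  have hprev : nmax (γ + 6) < n + 164 := by
    have := hmin (γ + 6) (by omega)
    omega
  rw [hγ] at hβ
  obtain ⟨R, hR⟩ : ∃ R, nmax (γ + 7) = n + 164 + R := ⟨nmax (γ + 7) - (n + 164), by omega⟩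
  obtain ⟨b, hb⟩ : ∃ b, b = 2 * γ + 15 := ⟨_, rfl⟩
  obtain ⟨q, hq⟩ : ∃ q, q = b * b := ⟨_, rfl⟩
  have hb15 : 15 ≤ b := by omega
  have hnm : nmax (γ + 7) + 2 * q = 2 * q * q := by
    unfold nmax; rw [hq, hb]; ring
  have hgap : nmax (γ + 7) ≤ nmax (γ + 6) + 16 * (q * b) := by
    unfold nmax; rw [hq, hb]; nlinarith [Nat.zero_le γ, Nat.zero_le (γ ^ 2), Nat.zero_le (γ ^ 3)]
  have hb4 : b ^ 4 + 164 ≤ nmax (γ + 6) := by
    unfold nmax; rw [hb]
    nlinarith [Nat.zero_le γ, Nat.zero_le (γ ^ 2), Nat.zero_le (γ ^ 3), Nat.zero_le (γ ^ 4)]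
  obtain ⟨s, hs⟩ : ∃ s, s = R / (3 * (q + 1)) := ⟨_, rfl⟩
  obtain ⟨r, hr⟩ : ∃ r, r = R % (3 * (q + 1)) := ⟨_, rfl⟩
  have hdiv : 3 * (q + 1) * s + r = R := by rw [hs, hr]; exact Nat.div_add_mod _ _
  have hrlt : r < 3 * (q + 1) := by rw [hr]; exact Nat.mod_lt _ (by omega)
  have hq15 : 15 * b ≤ q := by rw [hq]; exact Nat.mul_le_mul_right _ hb15
  have hs6 : s ≤ 6 * b := by
    by_contra hc
    have h1 : 6 * b ≤ s := by omega
    have h2 : 3 * (q + 1) * (6 * b) ≤ 3 * (q + 1) * s := Nat.mul_le_mul_left _ h1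
    have h3 : R < 16 * (q * b) := by omega
    nlinarith
  obtain ⟨d, hd1, hdsum⟩ := Pool.Agent.H4.Sparse.five_squares (r + 169) (by omega)
  have hd2 : ∀ i, d i ≤ 2 * b := by
    intro i
    have h1 : d i * d i ≤ ∑ i, d i * d i :=
      Finset.single_le_sum (f := fun i => d i * d i) (fun _ _ => Nat.zero_le _) (Finset.mem_univ i)
    by_contra hc
    have h2 : 2 * b + 1 ≤ d i := by omega
    have h3 : (2 * b + 1) * (2 * b + 1) ≤ d i * d i := Nat.mul_le_mul h2 h2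
    nlinarith
  have hsum : ∑ i, d i ≤ 10 * b := by
    have := Finset.sum_le_sum (s := Finset.univ) (fun i _ => hd2 i)
    simp only [Finset.sum_const, Finset.card_univ, Fintype.card_fin, smul_eq_mul] at this
    omega
  obtain ⟨a, ha⟩ : ∃ a, a + 2 * s + 2 = q := ⟨q - 2 - 2 * s, by omega⟩
  have hda : ∀ i, d i ≤ a := fun i => by have := hd2 i; omega
  have hsq : ∑ i, d i ≤ q := by omega
  have hcnt := Pool.Agent.H4.Sparse.sum_cnt (q := q) hda hsq
  have hcard := Pool.Agent.H4.Sparse.card_VV (a := a) (s := s) (q := q) (d := d)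
  have hedge := Pool.Agent.H4.Sparse.card_edges (a := a) (s := s) (q := q) (d := d) hda
  have hn' : Fintype.card (Pool.Agent.H4.Sparse.VV a s q d) = n := by
    rw [hcard]
    have e1 : 2 * a * q + 4 * (s * q) + 4 * q = 2 * q * q := by rw [← ha]; ring
    have e2 : 3 * (q + 1) * s = 3 * (s * q) + 3 * s := by ring
    omega
  refine ⟨_, ⟨Pool.Agent.H4.Sparse.VV a s q d, inferInstance, inferInstance,
    Pool.Agent.H4.Sparse.G a s q d, inferInstance, hn',
    Pool.Agent.H4.Sparse.G_connected hda hd1, ?_, rfl⟩, b, by omega, ?_⟩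
  · refine ⟨Pool.Agent.H4.Sparse.U false, Pool.Agent.H4.Sparse.U true, by
      simp [Pool.Agent.H4.Sparse.U], Real.pi / Real.sqrt 2, -1, by simp, ?_⟩
    exact Pool.Agent.H4.Sparse.G_pst (γ + 7) (by rw [hq, hb]; ring) ha hda hsq
  · rw [hedge]; omega

theorem result : ∀ n : ℕ, 56784 ≤ n →
    ∃ k : ℕ, m n = (k : ℕ∞) ∧ n ≤ k + 1 ∧ (k : ℝ) ≤ (n : ℝ) + 16 * (n : ℝ) ^ ((1 : ℝ) / 4) := by
  intro n hn
  obtain ⟨k0, hk0, b, hb, hk⟩ := exists_graph n hn
  have hne : (edgeCounts n).Nonempty := ⟨k0, hk0⟩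
  have hmem := Nat.sInf_mem hne
  refine ⟨sInf (edgeCounts n), ?_, ?_, ?_⟩
  · apply le_antisymm
    · exact sInf_le ⟨_, hmem, rfl⟩
    · apply le_sInf
      rintro _ ⟨k, hk, rfl⟩
      show ((sInf (edgeCounts n) : ℕ) : ℕ∞) ≤ (k : ℕ∞)
      exact_mod_cast Nat.sInf_le hk
  · obtain ⟨V, _, _, G, _, hc, hconn, _, he⟩ := hmem
    have := hconn.card_vert_le_card_edgeSet_add_one
    rw [Nat.card_eq_fintype_card, Nat.card_eq_fintype_card, ← SimpleGraph.edgeFinset_card, he,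
      hc] at this
    exact this
  · have h1 : sInf (edgeCounts n) ≤ n + 16 * b := (Nat.sInf_le hk0).trans hk
    have h2 : ((sInf (edgeCounts n) : ℕ) : ℝ) ≤ (n : ℝ) + 16 * (b : ℝ) := by exact_mod_cast h1
    have h3 : (b : ℝ) ≤ (n : ℝ) ^ ((1 : ℝ) / 4) := by
      have h4 : ((b : ℝ) ^ 4) ≤ (n : ℝ) := by exact_mod_cast hb
      have h5 : ((b : ℝ) ^ 4) ^ ((1 : ℝ) / 4) ≤ (n : ℝ) ^ ((1 : ℝ) / 4) :=
        Real.rpow_le_rpow (by positivity) h4 (by norm_num)
      rw [← Real.rpow_natCast, ← Real.rpow_mul (by positivity)] at h5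
      norm_num at h5
      simpa using h5
    linarith

end Pool.Agent.Results.MP_8f05cb_co.Asymptotic
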